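import Pool.Agent.Helper97_WHT.Stmt

set_option autoImplicit false

/-!
# Squad WHT, module HEC: a Hecke operator at a deep point of the cone
-/

open scoped BigOperators

namespace Pool.Agent.WHT.H24

open Pool.Agent.DEN Pool.Agent.TMP

section
variable {r : ℕ} {C : Matrix (Fin r) (Fin r) ℤ} {K : Type} [Field K]

theorem tg_EE (hC : SimplyLaced C) (l : Fin r → ℤ) (β : Rt C) :
    (tg hC K l).1 (EE β : LieV C (FF K)) = tt K ^ (ip C β.1 l) • EE β := by
  classical
  rw [isTor_tg hC l]
  refine Prod.ext ?_ ?_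
  · show (0 : Fin r → FF K) = tt K ^ (ip C β.1 l) • (0 : Fin r → FF K)
    rw [smul_zero]
  · funext γ
    show tt K ^ (ip C γ.1 l) * (if γ = β then 1 else 0) =
      tt K ^ (ip C β.1 l) * (if γ = β then 1 else 0)
    by_cases hγ : γ = β
    · rw [hγ]
    · rw [if_neg hγ, mul_zero, mul_zero]

/-- The coordinate of `u e_β` at `β` is `1`. -/
theorem Ug_EE (hC : SimplyLaced C) {u : grp C K} (hu : u ∈ Ug C K) (β : Rt C) :
    (u.1 (EE β)).2 β = 1 := by
  classical
  obtain ⟨l0, hl0⟩ := H39.exists_rho hC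
  have h6 := ((H39.luni_Ug hC hl0 hu).1 _ _ (H64.EE_fil l0 β)).2 β (by omega)
  have h7 : (EE β : LieV C (FF K)).2 β = 1 := by
    unfold EE
    simp only [if_true]
  rw [Prod.snd_sub, Pi.sub_apply, h7, sub_eq_zero] at h6
  exact h6

theorem tt_le {n : ℤ} {ρ : ℕ} (h : tt K ^ n ∈ Bd K ρ) : n ≤ ρ := by
  have hF := H22.hF1 K
  have e : tt K ^ n = tt K ^ (ρ : ℤ) * tt K ^ (n - ρ) := by
    rw [← zpow_add₀ hF.2.2.2.2.2.2.1]
    congr 1
    ring
  rw [e] at h
  have h1 := (hF.2.2.2.2.2.2.2.1 _ _).1 h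
  have h2 := H39.tt_mem h1
  omega

/-- The simple heights of `l` are at least `-ρ` if `v t^l` is bounded by `ρ`. -/
theorem ip_ge (hC : SimplyLaced C) {v : grp C K} (hv : v ∈ Ug C K) {l : Fin r → ℤ} {ρ : ℕ}
    (h : bnd ρ (v * tg hC K l)) (i : Fin r) : -(ρ : ℤ) ≤ ip C (al i) l := by
  have h1 := (h (EE (hC.sr i).neg) (H39.EE_Cd _)).2 (hC.sr i).neg
  have h2 : (v * tg hC K l).1 (EE (hC.sr i).neg) =
      v.1 ((tg hC K l).1 (EE (hC.sr i).neg)) := rfl
  rw [h2, tg_EE, map_smul] at h1
  have h3 : tt K ^ (ip C (hC.sr i).neg.1 l) * (v.1 (EE (hC.sr i).neg)).2 (hC.sr i).neg ∈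
      Bd K ρ := h1
  rw [Ug_EE hC hv, mul_one] at h3
  have h4 := tt_le h3
  rw [Rt.neg_val, ip_neg_left, SimplyLaced.sr_val] at h4
  omega

/-- Conjugation by `t^m` and the simple coordinates. -/
theorem sc_conj (hC : SimplyLaced C) (i : Fin r) (m : Fin r → ℤ) (v : grp C K) :
    sc hC i (tg hC K m * v * (tg hC K m)⁻¹) = tt K ^ (ip C (al i) m) * sc hC i v := by
  unfold sc
  have e : (tg hC K m * v * (tg hC K m)⁻¹).1 (EE (hC.sr i).neg) =
      (tg hC K m).1 (v.1 ((tg hC K (-m)).1 (EE (hC.sr i).neg))) := by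
    rw [tg_neg]
    rfl
  rw [e, tg_EE, map_smul, map_smul, isTor_tg hC m]
  have e2 : ip C (hC.sr i).neg.1 (-m) = ip C (al i) m := by
    rw [Rt.neg_val, ip_neg_left, ip_neg_right, SimplyLaced.sr_val, neg_neg]
  rw [e2]
  show -(tt K ^ (ip C (al i) m) * (v.1 (EE (hC.sr i).neg)).1 i) = _
  ring

theorem sc_bnd (hC : SimplyLaced C) (i : Fin r) {v : grp C K} {ρ : ℕ} (h : bnd ρ v) :
    sc hC i v ∈ Bd K ρ :=
  (H22.hF1 K).2.2.1 _ _ ((h (EE (hC.sr i).neg) (H39.EE_Cd _)).1 i)

end

/-- **HEC** -/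
theorem hec (hgen : GenxStmt) : HecStmt := by
  classical
  intro r C hC K _ _ N χ hχ m ρ hdeep k hk hrad P hP u hu
  obtain ⟨-, -, hchi, -⟩ := hgen r C hC K
  have hF := H22.hF1 K
  have hgo : u • tp hC K m = (u * tg hC K m) • oo C K := by
    rw [mul_smul, tp_smul]
  -- the values at the neighbours
  have key : ∀ z : XX C K, k (oo C K) z * P ((u * tg hC K m) • z) =
      Set.indicator (Hor hC K 0) (fun y => k (oo C K) y) z * χ u := by
    intro z
    by_cases hz : k (oo C K) z = 0
    · rw [hz, zero_mul]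
      by_cases h0 : z ∈ Hor hC K 0
      · rw [Set.indicator_of_mem h0, hz, zero_mul]
      · rw [Set.indicator_of_notMem h0, zero_mul]
    · obtain ⟨v, hv, l, hl⟩ := iwa hC z
      have hzo : z = (v * tg hC K l) • oo C K := by
        rw [mul_smul, tp_smul, hl]
      have hb : bnd ρ (v * tg hC K l) := by
        refine (hrad _ ?_).1
        rw [← hzo]
        exact hz
      have hdom : IsDom C (m + l) := by
        intro i
        have h1 := ip_ge hC hv hb i
        have h2 := (hdeep i).1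
        rw [ip_add_right]
        omega
      have hw : tg hC K m * v * (tg hC K m)⁻¹ ∈ Ug C K := TMP.H58.tg_Ug hC m hv
      have hgz : (u * tg hC K m) • z =
          (u * (tg hC K m * v * (tg hC K m)⁻¹)) • tp hC K (m + l) := by
        rw [hl, ← tg_tp, ← mul_smul, ← mul_smul]
        congr 1
        group
      rw [hgz, hP _ hdom _ (mul_mem hu hw)]
      by_cases hl0 : l = 0
      · have hzH : z ∈ Hor hC K 0 := ⟨v, hv, by rw [hl, hl0]⟩
        rw [if_pos (by rw [hl0, add_zero]), Set.indicator_of_mem hzH, hχ.mul _ hu _ hw]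
        have hw1 : χ (tg hC K m * v * (tg hC K m)⁻¹) = 1 := by
          rw [hchi N χ hχ _ hw]
          refine Finset.prod_eq_one fun i _ => ?_
          refine (hdeep i).2 _ ?_
          rw [sc_conj]
          have h3 : bnd ρ v := by
            rw [hl0, tg_zero, mul_one] at hb
            exact hb
          have h4 : tt K ^ (ip C (al i) m) ∈ Bd K (ip C (al i) m) := by
            have h5 := (hF.2.2.2.2.2.2.2.1 (ip C (al i) m) 1).2 (by
              have h6 := hF.2.2.2.2.2.1 1
              simpa using h6)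
            rwa [mul_one] at h5
          exact hF.2.2.2.1 _ _ _ _ h4 (sc_bnd hC i h3)
        rw [hw1, mul_one]
      · have hzH : z ∉ Hor hC K 0 := by
          rintro ⟨v', hv', h⟩
          apply hl0
          refine H39.hor1 hC (mul_mem (inv_mem hv') hv) l 0 ?_
          rw [mul_smul, ← hl, h, inv_smul_smul]
        have hne : ¬ (m + l = m) := by
          intro h
          exact hl0 (by
            have h2 := congrArg (fun x => -m + x) h
            simpa using h2)
        rw [if_neg hne, Set.indicator_of_notMem hzH, mul_zero, zero_mul]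
  have h1 : ∑ᶠ y, k (u • tp hC K m) y * P y =
      ∑ᶠ z, k (oo C K) z * P ((u * tg hC K m) • z) := by
    rw [← finsum_comp_equiv (MulAction.toPerm (u * tg hC K m))]
    refine finsum_congr fun z => ?_
    rw [MulAction.toPerm_apply, hgo, hk.inv]
  rw [h1, finsum_congr key]
  rw [← finsum_mul]
  congr 1
  unfold sat hsum
  rw [finsum_mem_def]
  have h3 : hv (0 : Fin r → ℤ) = 0 := by
    unfold hv
    simp
  rw [h3, zpow_zero, one_mul]

end Pool.Agent.WHT.H24
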